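import Pool.Agent.NNr.R13_1_1_2.D0
import Pool.Agent.NNe.Slots

set_option linter.all false
set_option maxRecDepth 1000000
namespace Pool.Agent.NNr.R13_1_1_2

open Pool.Agent.NNe

def wf0_0 : wfC (nat_lit 61) (nat_lit 2) C0_0 = true := by decide +kernel
def pl0_0 : plCk (nat_lit 61) (nat_lit 2) (nat_lit 13) (nat_lit 0) (nat_lit 0) (nat_lit 7) (nat_lit 34) (nat_lit 4) (nat_lit 0) nl1 CL0 = true := by decide +kernel
def wf0_1 : wfC (nat_lit 61) (nat_lit 2) C0_1 = true := by decide +kernel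
def pl0_1 : plCk (nat_lit 61) (nat_lit 2) (nat_lit 13) (nat_lit 0) (nat_lit 0) (nat_lit 7) (nat_lit 34) (nat_lit 4) (nat_lit 1) nl1 CL0 = true := by decide +kernel
def wf0_2 : wfC (nat_lit 61) (nat_lit 2) C0_2 = true := by decide +kernel
def pl0_2 : plCk (nat_lit 61) (nat_lit 2) (nat_lit 13) (nat_lit 0) (nat_lit 0) (nat_lit 7) (nat_lit 34) (nat_lit 4) (nat_lit 2) nl1 CL0 = true := by decide +kernel
def wf0_3 : wfC (nat_lit 61) (nat_lit 2) C0_3 = true := by decide +kernel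
def pl0_3 : plCk (nat_lit 61) (nat_lit 2) (nat_lit 13) (nat_lit 0) (nat_lit 0) (nat_lit 7) (nat_lit 34) (nat_lit 4) (nat_lit 3) nl1 CL0 = true := by decide +kernel
def wf0_4 : wfC (nat_lit 61) (nat_lit 2) C0_4 = true := by decide +kernel
def pl0_4 : plCk (nat_lit 61) (nat_lit 2) (nat_lit 13) (nat_lit 0) (nat_lit 0) (nat_lit 7) (nat_lit 34) (nat_lit 4) (nat_lit 4) nl1 CL0 = true := by decide +kernel
def wf0_5 : wfC (nat_lit 61) (nat_lit 2) C0_5 = true := by decide +kernel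
def pl0_5 : plCk (nat_lit 61) (nat_lit 2) (nat_lit 13) (nat_lit 0) (nat_lit 0) (nat_lit 7) (nat_lit 34) (nat_lit 4) (nat_lit 5) nl1 CL0 = true := by decide +kernel
def wf0_6 : wfC (nat_lit 61) (nat_lit 2) C0_6 = true := by decide +kernel
def pl0_6 : plCk (nat_lit 61) (nat_lit 2) (nat_lit 13) (nat_lit 0) (nat_lit 0) (nat_lit 7) (nat_lit 34) (nat_lit 4) (nat_lit 6) nl1 CL0 = true := by decide +kernel
def wf0_7 : wfC (nat_lit 61) (nat_lit 2) C0_7 = true := by decide +kernel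
def pl0_7 : plCk (nat_lit 61) (nat_lit 2) (nat_lit 13) (nat_lit 0) (nat_lit 0) (nat_lit 7) (nat_lit 34) (nat_lit 4) (nat_lit 7) nl1 CL0 = true := by decide +kernel
def wf0_8 : wfC (nat_lit 61) (nat_lit 2) C0_8 = true := by decide +kernel
def pl0_8 : plCk (nat_lit 61) (nat_lit 2) (nat_lit 13) (nat_lit 0) (nat_lit 0) (nat_lit 7) (nat_lit 34) (nat_lit 4) (nat_lit 8) nl1 CL0 = true := by decide +kernel
def wf0_9 : wfC (nat_lit 61) (nat_lit 2) C0_9 = true := by decide +kernel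
def pl0_9 : plCk (nat_lit 61) (nat_lit 2) (nat_lit 13) (nat_lit 0) (nat_lit 0) (nat_lit 7) (nat_lit 34) (nat_lit 4) (nat_lit 9) nl1 CL0 = true := by decide +kernel
def wf0_10 : wfC (nat_lit 61) (nat_lit 2) C0_10 = true := by decide +kernel
def pl0_10 : plCk (nat_lit 61) (nat_lit 2) (nat_lit 13) (nat_lit 0) (nat_lit 0) (nat_lit 7) (nat_lit 34) (nat_lit 4) (nat_lit 10) nl1 CL0 = true := by decide +kernel
def wf0_11 : wfC (nat_lit 61) (nat_lit 2) C0_11 = true := by decide +kernel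
def pl0_11 : plCk (nat_lit 61) (nat_lit 2) (nat_lit 13) (nat_lit 0) (nat_lit 0) (nat_lit 7) (nat_lit 34) (nat_lit 4) (nat_lit 11) nl1 CL0 = true := by decide +kernel
def wf0_12 : wfC (nat_lit 61) (nat_lit 2) C0_12 = true := by decide +kernel
def pl0_12 : plCk (nat_lit 61) (nat_lit 2) (nat_lit 13) (nat_lit 0) (nat_lit 0) (nat_lit 7) (nat_lit 34) (nat_lit 4) (nat_lit 12) nl1 CL0 = true := by decide +kernel
def wf0_13 : wfC (nat_lit 61) (nat_lit 2) C0_13 = true := by decide +kernel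
def pl0_13 : plCk (nat_lit 61) (nat_lit 2) (nat_lit 13) (nat_lit 0) (nat_lit 0) (nat_lit 7) (nat_lit 34) (nat_lit 4) (nat_lit 13) nl1 CL0 = true := by decide +kernel
def wf0_14 : wfC (nat_lit 61) (nat_lit 2) C0_14 = true := by decide +kernel
def pl0_14 : plCk (nat_lit 61) (nat_lit 2) (nat_lit 13) (nat_lit 0) (nat_lit 0) (nat_lit 7) (nat_lit 34) (nat_lit 4) (nat_lit 14) nl1 CL0 = true := by decide +kernel
def wf0_15 : wfC (nat_lit 61) (nat_lit 2) C0_15 = true := by decide +kernel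
def pl0_15 : plCk (nat_lit 61) (nat_lit 2) (nat_lit 13) (nat_lit 0) (nat_lit 0) (nat_lit 7) (nat_lit 34) (nat_lit 4) (nat_lit 15) nl1 CL0 = true := by decide +kernel
def wf0_16 : wfC (nat_lit 61) (nat_lit 2) C0_16 = true := by decide +kernel
def pl0_16 : plCk (nat_lit 61) (nat_lit 2) (nat_lit 13) (nat_lit 0) (nat_lit 0) (nat_lit 7) (nat_lit 34) (nat_lit 4) (nat_lit 16) nl1 CL0 = true := by decide +kernel
def wf0_17 : wfC (nat_lit 61) (nat_lit 2) C0_17 = true := by decide +kernel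
def pl0_17 : plCk (nat_lit 61) (nat_lit 2) (nat_lit 13) (nat_lit 0) (nat_lit 0) (nat_lit 7) (nat_lit 34) (nat_lit 4) (nat_lit 17) nl1 CL0 = true := by decide +kernel
def wf0_18 : wfC (nat_lit 61) (nat_lit 2) C0_18 = true := by decide +kernel
def pl0_18 : plCk (nat_lit 61) (nat_lit 2) (nat_lit 13) (nat_lit 0) (nat_lit 0) (nat_lit 7) (nat_lit 34) (nat_lit 4) (nat_lit 18) nl1 CL0 = true := by decide +kernel
def wf0_19 : wfC (nat_lit 61) (nat_lit 2) C0_19 = true := by decide +kernel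
def pl0_19 : plCk (nat_lit 61) (nat_lit 2) (nat_lit 13) (nat_lit 0) (nat_lit 0) (nat_lit 7) (nat_lit 34) (nat_lit 4) (nat_lit 19) nl1 CL0 = true := by decide +kernel
def wf0_20 : wfC (nat_lit 61) (nat_lit 2) C0_20 = true := by decide +kernel
def pl0_20 : plCk (nat_lit 61) (nat_lit 2) (nat_lit 13) (nat_lit 0) (nat_lit 0) (nat_lit 7) (nat_lit 34) (nat_lit 4) (nat_lit 20) nl1 CL0 = true := by decide +kernel
def wf0_21 : wfC (nat_lit 61) (nat_lit 2) C0_21 = true := by decide +kernel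
def pl0_21 : plCk (nat_lit 61) (nat_lit 2) (nat_lit 13) (nat_lit 0) (nat_lit 0) (nat_lit 7) (nat_lit 34) (nat_lit 4) (nat_lit 21) nl1 CL0 = true := by decide +kernel
def wf0_22 : wfC (nat_lit 61) (nat_lit 2) C0_22 = true := by decide +kernel
def pl0_22 : plCk (nat_lit 61) (nat_lit 2) (nat_lit 13) (nat_lit 0) (nat_lit 0) (nat_lit 7) (nat_lit 34) (nat_lit 4) (nat_lit 22) nl1 CL0 = true := by decide +kernel
def wf0_23 : wfC (nat_lit 61) (nat_lit 2) C0_23 = true := by decide +kernel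
def pl0_23 : plCk (nat_lit 61) (nat_lit 2) (nat_lit 13) (nat_lit 0) (nat_lit 0) (nat_lit 7) (nat_lit 34) (nat_lit 4) (nat_lit 23) nl1 CL0 = true := by decide +kernel
def wf0_24 : wfC (nat_lit 61) (nat_lit 2) C0_24 = true := by decide +kernel
def pl0_24 : plCk (nat_lit 61) (nat_lit 2) (nat_lit 13) (nat_lit 0) (nat_lit 0) (nat_lit 7) (nat_lit 34) (nat_lit 4) (nat_lit 24) nl1 CL0 = true := by decide +kernel
def wf0_25 : wfC (nat_lit 61) (nat_lit 2) C0_25 = true := by decide +kernel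
def pl0_25 : plCk (nat_lit 61) (nat_lit 2) (nat_lit 13) (nat_lit 0) (nat_lit 0) (nat_lit 7) (nat_lit 34) (nat_lit 4) (nat_lit 25) nl1 CL0 = true := by decide +kernel
def wf0_26 : wfC (nat_lit 61) (nat_lit 2) C0_26 = true := by decide +kernel
def pl0_26 : plCk (nat_lit 61) (nat_lit 2) (nat_lit 13) (nat_lit 0) (nat_lit 0) (nat_lit 7) (nat_lit 34) (nat_lit 4) (nat_lit 26) nl1 CL0 = true := by decide +kernel
def wf0_27 : wfC (nat_lit 61) (nat_lit 2) C0_27 = true := by decide +kernel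
def pl0_27 : plCk (nat_lit 61) (nat_lit 2) (nat_lit 13) (nat_lit 0) (nat_lit 0) (nat_lit 7) (nat_lit 34) (nat_lit 4) (nat_lit 27) nl1 CL0 = true := by decide +kernel
def wf0_28 : wfC (nat_lit 61) (nat_lit 2) C0_28 = true := by decide +kernel
def pl0_28 : plCk (nat_lit 61) (nat_lit 2) (nat_lit 13) (nat_lit 0) (nat_lit 0) (nat_lit 7) (nat_lit 34) (nat_lit 4) (nat_lit 28) nl1 CL0 = true := by decide +kernel
def wf0_29 : wfC (nat_lit 61) (nat_lit 2) C0_29 = true := by decide +kernel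
def pl0_29 : plCk (nat_lit 61) (nat_lit 2) (nat_lit 13) (nat_lit 0) (nat_lit 0) (nat_lit 7) (nat_lit 34) (nat_lit 4) (nat_lit 29) nl1 CL0 = true := by decide +kernel
def wf0_30 : wfC (nat_lit 61) (nat_lit 2) C0_30 = true := by decide +kernel
def pl0_30 : plCk (nat_lit 61) (nat_lit 2) (nat_lit 13) (nat_lit 0) (nat_lit 0) (nat_lit 7) (nat_lit 34) (nat_lit 4) (nat_lit 30) nl1 CL0 = true := by decide +kernel
def wf0_31 : wfC (nat_lit 61) (nat_lit 2) C0_31 = true := by decide +kernel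
def pl0_31 : plCk (nat_lit 61) (nat_lit 2) (nat_lit 13) (nat_lit 0) (nat_lit 0) (nat_lit 7) (nat_lit 34) (nat_lit 4) (nat_lit 31) nl1 CL0 = true := by decide +kernel
def wf0_32 : wfC (nat_lit 61) (nat_lit 2) C0_32 = true := by decide +kernel
def pl0_32 : plCk (nat_lit 61) (nat_lit 2) (nat_lit 13) (nat_lit 0) (nat_lit 0) (nat_lit 7) (nat_lit 34) (nat_lit 4) (nat_lit 32) nl1 CL0 = true := by decide +kernel
def wf0_33 : wfC (nat_lit 61) (nat_lit 2) C0_33 = true := by decide +kernel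
def pl0_33 : plCk (nat_lit 61) (nat_lit 2) (nat_lit 13) (nat_lit 0) (nat_lit 0) (nat_lit 7) (nat_lit 34) (nat_lit 4) (nat_lit 33) nl1 CL0 = true := by decide +kernel
def ti0_0 : tileCk (nat_lit 61) (nat_lit 2) (nat_lit 1) (nat_lit 1) (nat_lit 440) (nat_lit 13) (nat_lit 34) ZL0_0 CL0 = true := by decide +kernel
def zl0_0 : zlOK (nat_lit 440) ZL0_0 = true := by decide +kernel

end Pool.Agent.NNr.R13_1_1_2
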