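import Pool.Agent.NNr.R13_1_1_2.D0
import Pool.Agent.NNr.R13_1_1_2.D1
import Pool.Agent.NNr.R13_1_1_2.D2
import Pool.Agent.NNe.Slots

set_option linter.all false
set_option maxRecDepth 1000000
namespace Pool.Agent.NNr.R13_1_1_2

open Pool.Agent.NNe

def st1_7_0 : starCk (nat_lit 59) (nat_lit 4) (nat_lit 1) (nat_lit 2) (nat_lit 36) (nat_lit 156) (nat_lit 256) C1_7 = true := by decide +kernel
def sc1_7 : stCov (nat_lit 2) (nat_lit 156) (Rl.cons (nat_lit 156) (nat_lit 36) Rl.nil) C1_7 = true := by decide +kernel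
def wf1_8 : wfC (nat_lit 59) (nat_lit 4) C1_8 = true := by decide +kernel
def rf1_8 : rfCk (nat_lit 61) (nat_lit 2) (nat_lit 59) (nat_lit 4) (nat_lit 9) (nat_lit 0) (nat_lit 8) TL1 CL0 CL1 = true := by decide +kernel
def st1_8_0 : starCk (nat_lit 59) (nat_lit 4) (nat_lit 1) (nat_lit 2) (nat_lit 14) (nat_lit 23) (nat_lit 1) C1_8 = true := by decide +kernel
def sc1_8 : stCov (nat_lit 0) (nat_lit 23) (Rl.cons (nat_lit 23) (nat_lit 14) Rl.nil) C1_8 = true := by decide +kernel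
def wf1_9 : wfC (nat_lit 59) (nat_lit 4) C1_9 = true := by decide +kernel
def rf1_9 : rfCk (nat_lit 61) (nat_lit 2) (nat_lit 59) (nat_lit 4) (nat_lit 9) (nat_lit 0) (nat_lit 9) TL1 CL0 CL1 = true := by decide +kernel
def st1_9_0 : starCk (nat_lit 59) (nat_lit 4) (nat_lit 1) (nat_lit 2) (nat_lit 20) (nat_lit 12) (nat_lit 1) C1_9 = true := by decide +kernel
def sc1_9 : stCov (nat_lit 0) (nat_lit 12) (Rl.cons (nat_lit 12) (nat_lit 20) Rl.nil) C1_9 = true := by decide +kernel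
def wf1_10 : wfC (nat_lit 59) (nat_lit 4) C1_10 = true := by decide +kernel
def rf1_10 : rfCk (nat_lit 61) (nat_lit 2) (nat_lit 59) (nat_lit 4) (nat_lit 9) (nat_lit 0) (nat_lit 10) TL1 CL0 CL1 = true := by decide +kernel
def st1_10_0 : starCk (nat_lit 59) (nat_lit 4) (nat_lit 1) (nat_lit 2) (nat_lit 38) (nat_lit 78) (nat_lit 16) C1_10 = true := by decide +kernel
def sc1_10 : stCov (nat_lit 1) (nat_lit 78) (Rl.cons (nat_lit 78) (nat_lit 38) Rl.nil) C1_10 = true := by decide +kernel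
def wf1_11 : wfC (nat_lit 59) (nat_lit 4) C1_11 = true := by decide +kernel
def rf1_11 : rfCk (nat_lit 61) (nat_lit 2) (nat_lit 59) (nat_lit 4) (nat_lit 9) (nat_lit 0) (nat_lit 11) TL1 CL0 CL1 = true := by decide +kernel
def st1_11_0 : starCk (nat_lit 59) (nat_lit 4) (nat_lit 1) (nat_lit 2) (nat_lit 36) (nat_lit 184) (nat_lit 256) C1_11 = true := by decide +kernel
def sc1_11 : stCov (nat_lit 2) (nat_lit 184) (Rl.cons (nat_lit 184) (nat_lit 36) Rl.nil) C1_11 = true := by decide +kernel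
def wf1_12 : wfC (nat_lit 59) (nat_lit 4) C1_12 = true := by decide +kernel
def rf1_12 : rfCk (nat_lit 61) (nat_lit 2) (nat_lit 59) (nat_lit 4) (nat_lit 9) (nat_lit 0) (nat_lit 12) TL1 CL0 CL1 = true := by decide +kernel
def st1_12_0 : starCk (nat_lit 59) (nat_lit 4) (nat_lit 1) (nat_lit 2) (nat_lit 28) (nat_lit 46) (nat_lit 1) C1_12 = true := by decide +kernel
def sc1_12 : stCov (nat_lit 0) (nat_lit 46) (Rl.cons (nat_lit 46) (nat_lit 28) Rl.nil) C1_12 = true := by decide +kernel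
def wf1_13 : wfC (nat_lit 59) (nat_lit 4) C1_13 = true := by decide +kernel
def rf1_13 : rfCk (nat_lit 61) (nat_lit 2) (nat_lit 59) (nat_lit 4) (nat_lit 9) (nat_lit 0) (nat_lit 13) TL1 CL0 CL1 = true := by decide +kernel
def st1_13_0 : starCk (nat_lit 59) (nat_lit 4) (nat_lit 1) (nat_lit 2) (nat_lit 23) (nat_lit 78) (nat_lit 16) C1_13 = true := by decide +kernel
def sc1_13 : stCov (nat_lit 1) (nat_lit 78) (Rl.cons (nat_lit 78) (nat_lit 23) Rl.nil) C1_13 = true := by decide +kernel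
def wf1_14 : wfC (nat_lit 59) (nat_lit 4) C1_14 = true := by decide +kernel
def rf1_14 : rfCk (nat_lit 61) (nat_lit 2) (nat_lit 59) (nat_lit 4) (nat_lit 9) (nat_lit 0) (nat_lit 14) TL1 CL0 CL1 = true := by decide +kernel
def st1_14_0 : starCk (nat_lit 59) (nat_lit 4) (nat_lit 1) (nat_lit 2) (nat_lit 36) (nat_lit 184) (nat_lit 256) C1_14 = true := by decide +kernel
def sc1_14 : stCov (nat_lit 2) (nat_lit 184) (Rl.cons (nat_lit 184) (nat_lit 36) Rl.nil) C1_14 = true := by decide +kernel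
def wf1_15 : wfC (nat_lit 59) (nat_lit 4) C1_15 = true := by decide +kernel
def rf1_15 : rfCk (nat_lit 61) (nat_lit 2) (nat_lit 59) (nat_lit 4) (nat_lit 9) (nat_lit 0) (nat_lit 15) TL1 CL0 CL1 = true := by decide +kernel
def st1_15_0 : starCk (nat_lit 59) (nat_lit 4) (nat_lit 1) (nat_lit 2) (nat_lit 28) (nat_lit 46) (nat_lit 1) C1_15 = true := by decide +kernel
def sc1_15 : stCov (nat_lit 0) (nat_lit 46) (Rl.cons (nat_lit 46) (nat_lit 28) Rl.nil) C1_15 = true := by decide +kernel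
def wf1_16 : wfC (nat_lit 59) (nat_lit 4) C1_16 = true := by decide +kernel
def rf1_16 : rfCk (nat_lit 61) (nat_lit 2) (nat_lit 59) (nat_lit 4) (nat_lit 9) (nat_lit 0) (nat_lit 16) TL1 CL0 CL1 = true := by decide +kernel
def st1_16_0 : starCk (nat_lit 59) (nat_lit 4) (nat_lit 1) (nat_lit 2) (nat_lit 54) (nat_lit 55) (nat_lit 256) C1_16 = true := by decide +kernel
def sc1_16 : stCov (nat_lit 2) (nat_lit 55) (Rl.cons (nat_lit 55) (nat_lit 54) Rl.nil) C1_16 = true := by decide +kernel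
def wf1_17 : wfC (nat_lit 59) (nat_lit 4) C1_17 = true := by decide +kernel
def rf1_17 : rfCk (nat_lit 61) (nat_lit 2) (nat_lit 59) (nat_lit 4) (nat_lit 9) (nat_lit 0) (nat_lit 17) TL1 CL0 CL1 = true := by decide +kernel
def st1_17_0 : starCk (nat_lit 59) (nat_lit 4) (nat_lit 1) (nat_lit 2) (nat_lit 36) (nat_lit 184) (nat_lit 256) C1_17 = true := by decide +kernel
def sc1_17 : stCov (nat_lit 2) (nat_lit 184) (Rl.cons (nat_lit 184) (nat_lit 36) Rl.nil) C1_17 = true := by decide +kernel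
def wf1_18 : wfC (nat_lit 59) (nat_lit 4) C1_18 = true := by decide +kernel
def rf1_18 : rfCk (nat_lit 61) (nat_lit 2) (nat_lit 59) (nat_lit 4) (nat_lit 9) (nat_lit 0) (nat_lit 18) TL1 CL0 CL1 = true := by decide +kernel
def st1_18_0 : starCk (nat_lit 59) (nat_lit 4) (nat_lit 1) (nat_lit 2) (nat_lit 28) (nat_lit 46) (nat_lit 1) C1_18 = true := by decide +kernel
def sc1_18 : stCov (nat_lit 0) (nat_lit 46) (Rl.cons (nat_lit 46) (nat_lit 28) Rl.nil) C1_18 = true := by decide +kernel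
def wf1_19 : wfC (nat_lit 59) (nat_lit 4) C1_19 = true := by decide +kernel
def rf1_19 : rfCk (nat_lit 61) (nat_lit 2) (nat_lit 59) (nat_lit 4) (nat_lit 9) (nat_lit 0) (nat_lit 19) TL1 CL0 CL1 = true := by decide +kernel
def st1_19_0 : starCk (nat_lit 59) (nat_lit 4) (nat_lit 1) (nat_lit 2) (nat_lit 27) (nat_lit 92) (nat_lit 16) C1_19 = true := by decide +kernel
def sc1_19 : stCov (nat_lit 1) (nat_lit 92) (Rl.cons (nat_lit 92) (nat_lit 27) Rl.nil) C1_19 = true := by decide +kernel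
def wf1_20 : wfC (nat_lit 59) (nat_lit 4) C1_20 = true := by decide +kernel
def rf1_20 : rfCk (nat_lit 61) (nat_lit 2) (nat_lit 59) (nat_lit 4) (nat_lit 9) (nat_lit 0) (nat_lit 20) TL1 CL0 CL1 = true := by decide +kernel
def st1_20_0 : starCk (nat_lit 59) (nat_lit 4) (nat_lit 1) (nat_lit 2) (nat_lit 46) (nat_lit 74) (nat_lit 16) C1_20 = true := by decide +kernel
def sc1_20 : stCov (nat_lit 1) (nat_lit 74) (Rl.cons (nat_lit 74) (nat_lit 46) Rl.nil) C1_20 = true := by decide +kernel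
def wf1_21 : wfC (nat_lit 59) (nat_lit 4) C1_21 = true := by decide +kernel
def rf1_21 : rfCk (nat_lit 61) (nat_lit 2) (nat_lit 59) (nat_lit 4) (nat_lit 9) (nat_lit 0) (nat_lit 21) TL1 CL0 CL1 = true := by decide +kernel
def st1_21_0 : starCk (nat_lit 59) (nat_lit 4) (nat_lit 1) (nat_lit 2) (nat_lit 18) (nat_lit 64) (nat_lit 256) C1_21 = true := by decide +kernel
def sc1_21 : stCov (nat_lit 2) (nat_lit 64) (Rl.cons (nat_lit 64) (nat_lit 18) Rl.nil) C1_21 = true := by decide +kernel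
def wf1_22 : wfC (nat_lit 59) (nat_lit 4) C1_22 = true := by decide +kernel
def rf1_22 : rfCk (nat_lit 61) (nat_lit 2) (nat_lit 59) (nat_lit 4) (nat_lit 9) (nat_lit 0) (nat_lit 22) TL1 CL0 CL1 = true := by decide +kernel
def st1_22_0 : starCk (nat_lit 59) (nat_lit 4) (nat_lit 1) (nat_lit 2) (nat_lit 46) (nat_lit 74) (nat_lit 16) C1_22 = true := by decide +kernel
def sc1_22 : stCov (nat_lit 1) (nat_lit 74) (Rl.cons (nat_lit 74) (nat_lit 46) Rl.nil) C1_22 = true := by decide +kernel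
def wf1_23 : wfC (nat_lit 59) (nat_lit 4) C1_23 = true := by decide +kernel
def rf1_23 : rfCk (nat_lit 61) (nat_lit 2) (nat_lit 59) (nat_lit 4) (nat_lit 9) (nat_lit 0) (nat_lit 23) TL1 CL0 CL1 = true := by decide +kernel
def st1_23_0 : starCk (nat_lit 59) (nat_lit 4) (nat_lit 1) (nat_lit 2) (nat_lit 23) (nat_lit 74) (nat_lit 16) C1_23 = true := by decide +kernel
def sc1_23 : stCov (nat_lit 1) (nat_lit 74) (Rl.cons (nat_lit 74) (nat_lit 23) Rl.nil) C1_23 = true := by decide +kernel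
def wf1_24 : wfC (nat_lit 59) (nat_lit 4) C1_24 = true := by decide +kernel
def rf1_24 : rfCk (nat_lit 61) (nat_lit 2) (nat_lit 59) (nat_lit 4) (nat_lit 9) (nat_lit 0) (nat_lit 24) TL1 CL0 CL1 = true := by decide +kernel
def st1_24_0 : starCk (nat_lit 59) (nat_lit 4) (nat_lit 1) (nat_lit 2) (nat_lit 14) (nat_lit 23) (nat_lit 1) C1_24 = true := by decide +kernel
def sc1_24 : stCov (nat_lit 0) (nat_lit 23) (Rl.cons (nat_lit 23) (nat_lit 14) Rl.nil) C1_24 = true := by decide +kernel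
def wf1_25 : wfC (nat_lit 59) (nat_lit 4) C1_25 = true := by decide +kernel
def rf1_25 : rfCk (nat_lit 61) (nat_lit 2) (nat_lit 59) (nat_lit 4) (nat_lit 9) (nat_lit 0) (nat_lit 25) TL1 CL0 CL1 = true := by decide +kernel
def st1_25_0 : starCk (nat_lit 59) (nat_lit 4) (nat_lit 1) (nat_lit 2) (nat_lit 44) (nat_lit 72) (nat_lit 4096) C1_25 = true := by decide +kernel
def sc1_25 : stCov (nat_lit 3) (nat_lit 72) (Rl.cons (nat_lit 72) (nat_lit 44) Rl.nil) C1_25 = true := by decide +kernel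
def wf1_26 : wfC (nat_lit 59) (nat_lit 4) C1_26 = true := by decide +kernel
def rf1_26 : rfCk (nat_lit 61) (nat_lit 2) (nat_lit 59) (nat_lit 4) (nat_lit 9) (nat_lit 0) (nat_lit 26) TL1 CL0 CL1 = true := by decide +kernel
def st1_26_0 : starCk (nat_lit 59) (nat_lit 4) (nat_lit 1) (nat_lit 2) (nat_lit 12) (nat_lit 0) (nat_lit 16) C1_26 = true := by decide +kernel
def sc1_26 : stCov (nat_lit 1) (nat_lit 0) (Rl.cons (nat_lit 0) (nat_lit 12) Rl.nil) C1_26 = true := by decide +kernel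
def wf1_27 : wfC (nat_lit 59) (nat_lit 4) C1_27 = true := by decide +kernel
def rf1_27 : rfCk (nat_lit 61) (nat_lit 2) (nat_lit 59) (nat_lit 4) (nat_lit 9) (nat_lit 0) (nat_lit 27) TL1 CL0 CL1 = true := by decide +kernel
def st1_27_0 : starCk (nat_lit 59) (nat_lit 4) (nat_lit 1) (nat_lit 2) (nat_lit 64) (nat_lit 85) (nat_lit 4096) C1_27 = true := by decide +kernel
def sc1_27 : stCov (nat_lit 3) (nat_lit 85) (Rl.cons (nat_lit 85) (nat_lit 64) Rl.nil) C1_27 = true := by decide +kernel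
def wf1_28 : wfC (nat_lit 59) (nat_lit 4) C1_28 = true := by decide +kernel
def rf1_28 : rfCk (nat_lit 61) (nat_lit 2) (nat_lit 59) (nat_lit 4) (nat_lit 9) (nat_lit 0) (nat_lit 28) TL1 CL0 CL1 = true := by decide +kernel
def st1_28_0 : starCk (nat_lit 59) (nat_lit 4) (nat_lit 1) (nat_lit 2) (nat_lit 12) (nat_lit 32) (nat_lit 16) C1_28 = true := by decide +kernel
def sc1_28 : stCov (nat_lit 1) (nat_lit 32) (Rl.cons (nat_lit 32) (nat_lit 12) Rl.nil) C1_28 = true := by decide +kernel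
def wf1_29 : wfC (nat_lit 59) (nat_lit 4) C1_29 = true := by decide +kernel
def rf1_29 : rfCk (nat_lit 61) (nat_lit 2) (nat_lit 59) (nat_lit 4) (nat_lit 9) (nat_lit 0) (nat_lit 29) TL1 CL0 CL1 = true := by decide +kernel
def st1_29_0 : starCk (nat_lit 59) (nat_lit 4) (nat_lit 1) (nat_lit 2) (nat_lit 45) (nat_lit 40) (nat_lit 1) C1_29 = true := by decide +kernel
def sc1_29 : stCov (nat_lit 0) (nat_lit 40) (Rl.cons (nat_lit 40) (nat_lit 45) Rl.nil) C1_29 = true := by decide +kernel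
def wf1_30 : wfC (nat_lit 59) (nat_lit 4) C1_30 = true := by decide +kernel
def rf1_30 : rfCk (nat_lit 61) (nat_lit 2) (nat_lit 59) (nat_lit 4) (nat_lit 9) (nat_lit 0) (nat_lit 30) TL1 CL0 CL1 = true := by decide +kernel
def st1_30_0 : starCk (nat_lit 59) (nat_lit 4) (nat_lit 1) (nat_lit 2) (nat_lit 28) (nat_lit 32) (nat_lit 256) C1_30 = true := by decide +kernel
def sc1_30 : stCov (nat_lit 2) (nat_lit 32) (Rl.cons (nat_lit 32) (nat_lit 28) Rl.nil) C1_30 = true := by decide +kernel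
def wf1_31 : wfC (nat_lit 59) (nat_lit 4) C1_31 = true := by decide +kernel
def rf1_31 : rfCk (nat_lit 61) (nat_lit 2) (nat_lit 59) (nat_lit 4) (nat_lit 9) (nat_lit 0) (nat_lit 31) TL1 CL0 CL1 = true := by decide +kernel
def st1_31_0 : starCk (nat_lit 59) (nat_lit 4) (nat_lit 1) (nat_lit 2) (nat_lit 52) (nat_lit 106) (nat_lit 16) C1_31 = true := by decide +kernel
def sc1_31 : stCov (nat_lit 1) (nat_lit 106) (Rl.cons (nat_lit 106) (nat_lit 52) Rl.nil) C1_31 = true := by decide +kernel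
def wf1_32 : wfC (nat_lit 59) (nat_lit 4) C1_32 = true := by decide +kernel
def rf1_32 : rfCk (nat_lit 61) (nat_lit 2) (nat_lit 59) (nat_lit 4) (nat_lit 9) (nat_lit 0) (nat_lit 32) TL1 CL0 CL1 = true := by decide +kernel
def st1_32_0 : starCk (nat_lit 59) (nat_lit 4) (nat_lit 1) (nat_lit 2) (nat_lit 40) (nat_lit 106) (nat_lit 16) C1_32 = true := by decide +kernel
def sc1_32 : stCov (nat_lit 1) (nat_lit 106) (Rl.cons (nat_lit 106) (nat_lit 40) Rl.nil) C1_32 = true := by decide +kernel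
def wf1_33 : wfC (nat_lit 59) (nat_lit 4) C1_33 = true := by decide +kernel
def rf1_33 : rfCk (nat_lit 61) (nat_lit 2) (nat_lit 59) (nat_lit 4) (nat_lit 9) (nat_lit 0) (nat_lit 33) TL1 CL0 CL1 = true := by decide +kernel
def st1_33_0 : starCk (nat_lit 59) (nat_lit 4) (nat_lit 1) (nat_lit 2) (nat_lit 64) (nat_lit 85) (nat_lit 4096) C1_33 = true := by decide +kernel
def sc1_33 : stCov (nat_lit 3) (nat_lit 85) (Rl.cons (nat_lit 85) (nat_lit 64) Rl.nil) C1_33 = true := by decide +kernel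
def ti1_0 : tileCk (nat_lit 59) (nat_lit 4) (nat_lit 2) (nat_lit 1) (nat_lit 914) (nat_lit 13) (nat_lit 34) ZL1_0 CL1 = true := by decide +kernel
def zl1_0 : zlOK (nat_lit 914) ZL1_0 = true := by decide +kernel
def tc1_0 : tiCov (nat_lit 1) (nat_lit 0) ZZ1 C1_0 = true := by decide +kernel
def tc1_1 : tiCov (nat_lit 1) (nat_lit 1) ZZ1 C1_1 = true := by decide +kernel
def tc1_2 : tiCov (nat_lit 1) (nat_lit 2) ZZ1 C1_2 = true := by decide +kernel
def tc1_3 : tiCov (nat_lit 1) (nat_lit 3) ZZ1 C1_3 = true := by decide +kernel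
def tc1_4 : tiCov (nat_lit 1) (nat_lit 4) ZZ1 C1_4 = true := by decide +kernel
def tc1_5 : tiCov (nat_lit 1) (nat_lit 5) ZZ1 C1_5 = true := by decide +kernel
def tc1_6 : tiCov (nat_lit 1) (nat_lit 6) ZZ1 C1_6 = true := by decide +kernel
def tc1_7 : tiCov (nat_lit 1) (nat_lit 7) ZZ1 C1_7 = true := by decide +kernel
def tc1_8 : tiCov (nat_lit 1) (nat_lit 8) ZZ1 C1_8 = true := by decide +kernel
def tc1_9 : tiCov (nat_lit 1) (nat_lit 9) ZZ1 C1_9 = true := by decide +kernel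
def tc1_10 : tiCov (nat_lit 1) (nat_lit 10) ZZ1 C1_10 = true := by decide +kernel
def tc1_11 : tiCov (nat_lit 1) (nat_lit 11) ZZ1 C1_11 = true := by decide +kernel
def tc1_12 : tiCov (nat_lit 1) (nat_lit 12) ZZ1 C1_12 = true := by decide +kernel
def tc1_13 : tiCov (nat_lit 1) (nat_lit 13) ZZ1 C1_13 = true := by decide +kernel
def tc1_14 : tiCov (nat_lit 1) (nat_lit 14) ZZ1 C1_14 = true := by decide +kernel
def tc1_15 : tiCov (nat_lit 1) (nat_lit 15) ZZ1 C1_15 = true := by decide +kernel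
def tc1_16 : tiCov (nat_lit 1) (nat_lit 16) ZZ1 C1_16 = true := by decide +kernel
def tc1_17 : tiCov (nat_lit 1) (nat_lit 17) ZZ1 C1_17 = true := by decide +kernel
def tc1_18 : tiCov (nat_lit 1) (nat_lit 18) ZZ1 C1_18 = true := by decide +kernel
def tc1_19 : tiCov (nat_lit 1) (nat_lit 19) ZZ1 C1_19 = true := by decide +kernel
def tc1_20 : tiCov (nat_lit 1) (nat_lit 20) ZZ1 C1_20 = true := by decide +kernel
def tc1_21 : tiCov (nat_lit 1) (nat_lit 21) ZZ1 C1_21 = true := by decide +kernel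
def tc1_22 : tiCov (nat_lit 1) (nat_lit 22) ZZ1 C1_22 = true := by decide +kernel
def tc1_23 : tiCov (nat_lit 1) (nat_lit 23) ZZ1 C1_23 = true := by decide +kernel
def tc1_24 : tiCov (nat_lit 1) (nat_lit 24) ZZ1 C1_24 = true := by decide +kernel
def tc1_25 : tiCov (nat_lit 1) (nat_lit 25) ZZ1 C1_25 = true := by decide +kernel
def tc1_26 : tiCov (nat_lit 1) (nat_lit 26) ZZ1 C1_26 = true := by decide +kernel
def tc1_27 : tiCov (nat_lit 1) (nat_lit 27) ZZ1 C1_27 = true := by decide +kernel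
def tc1_28 : tiCov (nat_lit 1) (nat_lit 28) ZZ1 C1_28 = true := by decide +kernel
def tc1_29 : tiCov (nat_lit 1) (nat_lit 29) ZZ1 C1_29 = true := by decide +kernel
def tc1_30 : tiCov (nat_lit 1) (nat_lit 30) ZZ1 C1_30 = true := by decide +kernel
def tc1_31 : tiCov (nat_lit 1) (nat_lit 31) ZZ1 C1_31 = true := by decide +kernel
def tc1_32 : tiCov (nat_lit 1) (nat_lit 32) ZZ1 C1_32 = true := by decide +kernel
def tc1_33 : tiCov (nat_lit 1) (nat_lit 33) ZZ1 C1_33 = true := by decide +kernel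
def wf2_0 : wfC (nat_lit 21) (nat_lit 4) C2_0 = true := by decide +kernel
def rf2_0 : rfCk (nat_lit 59) (nat_lit 4) (nat_lit 21) (nat_lit 4) (nat_lit 9) (nat_lit 0) (nat_lit 0) TL2 CL1 CL2 = true := by decide +kernel
def st2_0_0 : starCk (nat_lit 21) (nat_lit 4) (nat_lit 2) (nat_lit 1) (nat_lit 14) (nat_lit 0) (nat_lit 256) C2_0 = true := by decide +kernel
def sc2_0 : stCov (nat_lit 2) (nat_lit 0) (Rl.cons (nat_lit 0) (nat_lit 14) Rl.nil) C2_0 = true := by decide +kernel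
def wf2_2 : wfC (nat_lit 21) (nat_lit 4) C2_2 = true := by decide +kernel
def rf2_2 : rfCk (nat_lit 59) (nat_lit 4) (nat_lit 21) (nat_lit 4) (nat_lit 9) (nat_lit 0) (nat_lit 2) TL2 CL1 CL2 = true := by decide +kernel
def st2_2_0 : starCk (nat_lit 21) (nat_lit 4) (nat_lit 2) (nat_lit 1) (nat_lit 10) (nat_lit 28) (nat_lit 256) C2_2 = true := by decide +kernel
def sc2_2 : stCov (nat_lit 2) (nat_lit 28) (Rl.cons (nat_lit 28) (nat_lit 10) Rl.nil) C2_2 = true := by decide +kernel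
def wf2_3 : wfC (nat_lit 21) (nat_lit 4) C2_3 = true := by decide +kernel
def rf2_3 : rfCk (nat_lit 59) (nat_lit 4) (nat_lit 21) (nat_lit 4) (nat_lit 9) (nat_lit 0) (nat_lit 3) TL2 CL1 CL2 = true := by decide +kernel
def st2_3_0 : starCk (nat_lit 21) (nat_lit 4) (nat_lit 2) (nat_lit 1) (nat_lit 4) (nat_lit 11) (nat_lit 256) C2_3 = true := by decide +kernel
def sc2_3 : stCov (nat_lit 2) (nat_lit 11) (Rl.cons (nat_lit 11) (nat_lit 4) Rl.nil) C2_3 = true := by decide +kernel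
def wf2_4 : wfC (nat_lit 21) (nat_lit 4) C2_4 = true := by decide +kernel
def rf2_4 : rfCk (nat_lit 59) (nat_lit 4) (nat_lit 21) (nat_lit 4) (nat_lit 9) (nat_lit 0) (nat_lit 4) TL2 CL1 CL2 = true := by decide +kernel
def st2_4_0 : starCk (nat_lit 21) (nat_lit 4) (nat_lit 2) (nat_lit 1) (nat_lit 7) (nat_lit 0) (nat_lit 16) C2_4 = true := by decide +kernel
def sc2_4 : stCov (nat_lit 1) (nat_lit 0) (Rl.cons (nat_lit 0) (nat_lit 7) Rl.nil) C2_4 = true := by decide +kernel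
def wf2_6 : wfC (nat_lit 21) (nat_lit 4) C2_6 = true := by decide +kernel

end Pool.Agent.NNr.R13_1_1_2
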